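import Mathlib
import Pool.Agent.Lib_helper25.ET.Base
import Pool.Agent.Lib_helper94.ET.ER
import Pool.Agent.Lib_helper25.ET.FL
import Pool.Agent.Lib_helper42.ET.IV
import Pool.Agent.Lib_helper94.ET.M1

/-! Project ET (MP_861054_an), block M2: an ergodic flow has no drift. -/

set_option autoImplicit false

namespace Pool.Agent.ET

open MeasureTheory Filter Topology Set
open scoped ContDiff ENNReal

noncomputable section

variable {S : Torus}

/-! ### Bounded integrals are invariant -/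

theorem M2_fin (S : Torus) : IsFiniteMeasure (S.m.restrict S.box) := ⟨by
  rw [Measure.restrict_apply MeasurableSet.univ, univ_inter]
  exact box_fin S⟩

theorem M2_int_inv (Φ : Flow S) (t : ℝ) (f : ℂ × ℝ → ℝ) (hf : Measurable f) (hi : S.Inv f)
    (B : ℝ) (hB : ∀ v, |f v| ≤ B) :
    ∫ v in S.box, f (Φ.φ t v) ∂S.m = ∫ v in S.box, f v ∂S.m := by
  have := M2_fin S
  have h0 : ∀ v, 0 ≤ f v + B := fun v => by linarith [neg_abs_le (f v), hB v]
  have hft : Measurable fun v => f (Φ.φ t v) := hf.comp (Φ.cont_v t).measurable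
  have hb : ∀ g : ℂ × ℝ → ℝ, Measurable g → (∀ v, |g v| ≤ B) →
      Integrable g (S.m.restrict S.box) := fun g hg hgb =>
    Integrable.of_bound hg.aestronglyMeasurable B (ae_of_all _ fun v => hgb v)
  have h1 : ∀ g : ℂ × ℝ → ℝ, Measurable g → (∀ v, |g v| ≤ B) → (∀ v, 0 ≤ g v + B) →
      ∫ v in S.box, g v ∂S.m =
        (∫⁻ v in S.box, ENNReal.ofReal (g v + B) ∂S.m).toReal -
          ∫ _v in S.box, B ∂S.m := by
    intro g hg hgb hg0
    rw [← integral_eq_lintegral_of_nonneg_ae (ae_of_all _ hg0)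
      (hg.add_const B).aestronglyMeasurable, integral_add (hb g hg hgb) (integrable_const B)]
    ring
  rw [h1 _ hft (fun v => hB _) (fun v => h0 _), h1 f hf hB h0]
  have h2 := lint_inv Φ t (fun v => ENNReal.ofReal (f v + B)) (hf.add_const B).ennreal_ofReal
    (hi.comp fun x => ENNReal.ofReal (x + B))
  rw [h2]

/-! ### The mean displacement is zero -/

def M2_J (Φ : Flow S) (c : ℂ) (t : ℝ) : ℝ := ∫ v in S.box, (c * Φ.D t v).re ∂S.m

theorem M2_meas (Φ : Flow S) (c : ℂ) (t : ℝ) : Measurable fun v => (c * Φ.D t v).re :=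
  (Complex.continuous_re.comp (continuous_const.mul (Φ.D_cont_v t))).measurable

theorem M2_bound (Φ : Flow S) (c : ℂ) (t : ℝ) : ∃ B : ℝ, ∀ v, |(c * Φ.D t v).re| ≤ B := by
  obtain ⟨C, -, hC⟩ := D_le Φ
  refine ⟨‖c‖ * (C * |t|), fun v => (Complex.abs_re_le_norm _).trans ?_⟩
  rw [norm_mul]
  exact mul_le_mul_of_nonneg_left (hC t v) (norm_nonneg c)

theorem M2_integrable (Φ : Flow S) (c : ℂ) (t : ℝ) :
    Integrable (fun v => (c * Φ.D t v).re) (S.m.restrict S.box) := by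
  have := M2_fin S
  obtain ⟨B, hB⟩ := M2_bound Φ c t
  exact Integrable.of_bound (M2_meas Φ c t).aestronglyMeasurable B (ae_of_all _ fun v => hB v)

theorem M2_J_add (Φ : Flow S) (c : ℂ) (s t : ℝ) :
    M2_J Φ c (s + t) = M2_J Φ c s + M2_J Φ c t := by
  have := M2_fin S
  obtain ⟨B, hB⟩ := M2_bound Φ c s
  have h1 := M2_int_inv Φ t (fun v => (c * Φ.D s v).re) (M2_meas Φ c s)
    ((Φ.D_inv s).comp fun z => (c * z).re) B hB
  have h2 : Integrable (fun v => (c * Φ.D s (Φ.φ t v)).re) (S.m.restrict S.box) :=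
    Integrable.of_bound ((M2_meas Φ c s).comp (Φ.cont_v t).measurable).aestronglyMeasurable B
      (ae_of_all _ fun v => hB _)
  unfold M2_J
  rw [← h1, ← integral_add h2 (M2_integrable Φ c t)]
  refine integral_congr_ae (ae_of_all _ fun v => ?_)
  simp only [Φ.D_add, mul_add, Complex.add_re]

theorem M2_J_zero (Φ : Flow S) (c : ℂ) : M2_J Φ c 0 = 0 := by
  simp [M2_J]

theorem M2_J_nsmul (Φ : Flow S) (c : ℂ) (s : ℝ) (n : ℕ) :
    M2_J Φ c (n * s) = n * M2_J Φ c s := by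
  induction n with
  | zero => simp [M2_J_zero]
  | succ n ih =>
    rw [Nat.cast_succ, add_mul, one_mul, M2_J_add, ih]
    ring

/-- the velocity -/
def M2_V (S : Torus) (v : ℂ × ℝ) : ℂ :=
  (Real.exp (-S.u v.1) : ℂ) * Complex.exp (v.2 * Complex.I)

theorem M2_trig (c : ℂ) : ∫ θ in Ico (0 : ℝ) (2 * Real.pi), (c * Complex.exp (θ * Complex.I)).re = 0 := by
  have h1 : ∀ θ : ℝ, (c * Complex.exp (θ * Complex.I)).re =
      c.re * Real.cos θ - c.im * Real.sin θ := by
    intro θ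
    rw [Complex.mul_re, Complex.exp_ofReal_mul_I_re, Complex.exp_ofReal_mul_I_im]
  simp_rw [h1]
  rw [integral_Ico_eq_integral_Ioc, ← intervalIntegral.integral_of_le (by positivity),
    intervalIntegral.integral_sub
      ((by fun_prop : Continuous fun x : ℝ => c.re * Real.cos x).intervalIntegrable _ _)
      ((by fun_prop : Continuous fun x : ℝ => c.im * Real.sin x).intervalIntegrable _ _),
    intervalIntegral.integral_const_mul, intervalIntegral.integral_const_mul]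
  simp

theorem M2_box (S : Torus) : S.box = {z : ℂ | ∃ x ∈ Ico (0 : ℝ) 1, ∃ y ∈ Ico (0 : ℝ) 1,
    z = x * S.w₁ + y * S.w₂} ×ˢ Ico (0 : ℝ) (2 * Real.pi) := by
  ext v
  rfl

theorem M2_V_zero (S : Torus) (c : ℂ) : ∫ v in S.box, (c * M2_V S v).re ∂S.m = 0 := by
  have hρ : Measurable fun v : ℂ × ℝ => ENNReal.ofReal (Real.exp (2 * S.u v.1)) := by
    have : Continuous fun v : ℂ × ℝ => Real.exp (2 * S.u v.1) :=
      Real.continuous_exp.comp (continuous_const.mul (S.smooth.continuous.comp continuous_fst))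
    exact this.measurable.ennreal_ofReal
  rw [Torus.m, restrict_withDensity (box_meas S),
    integral_withDensity_eq_integral_toReal_smul hρ (ae_of_all _ fun _ => ENNReal.ofReal_lt_top)]
  have h1 : ∀ v : ℂ × ℝ, (ENNReal.ofReal (Real.exp (2 * S.u v.1))).toReal • (c * M2_V S v).re =
      (Real.exp (2 * S.u v.1) * Real.exp (-S.u v.1)) *
        (c * Complex.exp (v.2 * Complex.I)).re := by
    intro v
    rw [ENNReal.toReal_ofReal (Real.exp_pos _).le, smul_eq_mul, M2_V, mul_left_comm c,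
      Complex.re_ofReal_mul, mul_assoc]
  simp_rw [h1]
  rw [M2_box, Measure.volume_eq_prod]
  rw [setIntegral_prod_mul (fun z : ℂ => Real.exp (2 * S.u z) * Real.exp (-S.u z))
    (fun θ : ℝ => (c * Complex.exp (θ * Complex.I)).re), M2_trig, mul_zero]

theorem M2_J_one (Φ : Flow S) (c : ℂ) : M2_J Φ c 1 = 0 := by
  have := M2_fin S
  obtain ⟨C, hC0, hC⟩ := D_le Φ
  have h1 : Tendsto (fun n : ℕ => ∫ v in S.box,
      (c * (((n : ℝ) + 1 : ℝ) * Φ.D ((n : ℝ) + 1)⁻¹ v)).re ∂S.m) atTop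
      (𝓝 (∫ v in S.box, (c * M2_V S v).re ∂S.m)) := by
    refine tendsto_integral_of_dominated_convergence (fun _ => ‖c‖ * C) (fun n => ?_)
      (integrable_const _) (fun n => ae_of_all _ fun v => ?_) (ae_of_all _ fun v => ?_)
    · exact (Complex.continuous_re.comp (continuous_const.mul (continuous_const.mul
        (Φ.D_cont_v _)))).measurable.aestronglyMeasurable
    · rw [Real.norm_eq_abs]
      refine (Complex.abs_re_le_norm _).trans ?_
      rw [norm_mul, norm_mul]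
      refine mul_le_mul_of_nonneg_left ?_ (norm_nonneg c)
      have hn : (0 : ℝ) < (n : ℝ) + 1 := by positivity
      rw [Complex.norm_real, Real.norm_eq_abs, abs_of_pos hn]
      have h2 := hC ((n : ℝ) + 1)⁻¹ v
      rw [abs_of_pos (inv_pos.2 hn)] at h2
      calc ((n : ℝ) + 1) * ‖Φ.D ((n : ℝ) + 1)⁻¹ v‖ ≤ ((n : ℝ) + 1) * (C * ((n : ℝ) + 1)⁻¹) :=
            mul_le_mul_of_nonneg_left h2 hn.le
        _ = C := by field_simp
    · have h2 := (Φ.vel v 0).tendsto_slope_zero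
      rw [Φ.zero] at h2
      have h3 : Tendsto (fun n : ℕ => ((n : ℝ) + 1)⁻¹) atTop (𝓝[≠] 0) := by
        rw [tendsto_nhdsWithin_iff]
        refine ⟨?_, Eventually.of_forall fun n => by
          have : (0 : ℝ) < (n : ℝ) + 1 := by positivity
          exact (inv_pos.2 this).ne'⟩
        have := tendsto_one_div_add_atTop_nhds_zero_nat (𝕜 := ℝ)
        simpa [one_div] using this
      have h4 := h2.comp h3
      have h5 : Tendsto (fun n : ℕ => (((n : ℝ) + 1 : ℝ) : ℂ) * Φ.D ((n : ℝ) + 1)⁻¹ v) atTop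
          (𝓝 (M2_V S v)) := by
        refine h4.congr fun n => ?_
        simp only [Function.comp_apply, zero_add, inv_inv, Complex.real_smul, Flow.D]
      exact (Complex.continuous_re.tendsto _).comp (h5.const_mul c)
  rw [M2_V_zero] at h1
  have h2 : ∀ n : ℕ, ∫ v in S.box, (c * (((n : ℝ) + 1 : ℝ) * Φ.D ((n : ℝ) + 1)⁻¹ v)).re ∂S.m =
      M2_J Φ c 1 := by
    intro n
    have hn : (0 : ℝ) < (n : ℝ) + 1 := by positivity
    have h3 := M2_J_nsmul Φ c ((n : ℝ) + 1)⁻¹ (n + 1)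
    push_cast at h3
    rw [mul_inv_cancel₀ hn.ne'] at h3
    rw [h3, M2_J, ← integral_const_mul]
    refine integral_congr_ae (ae_of_all _ fun v => ?_)
    simp only []
    rw [mul_left_comm, Complex.re_ofReal_mul]
  simp_rw [h2] at h1
  exact tendsto_nhds_unique tendsto_const_nhds h1

theorem M2_J_nat (Φ : Flow S) (c : ℂ) (n : ℕ) : M2_J Φ c n = 0 := by
  have h := M2_J_nsmul Φ c 1 n
  rw [mul_one, M2_J_one, mul_zero] at h
  exact h

/-! ### The limit -/

theorem M2_inMeasure (Φ : Flow S) (g : ℂ × ℝ → ℂ) (hg : Measurable g)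
    (hl : Tendsto (fun n : ℕ => ∫⁻ v in S.box, ENNReal.ofReal (‖Φ.D n v / n - g v‖ ^ 2) ∂S.m)
      atTop (𝓝 0)) :
    TendstoInMeasure (S.m.restrict S.box) (fun (n : ℕ) v => Φ.D n v / n) atTop g := by
  rw [tendstoInMeasure_iff_norm]
  intro ε hε
  have hε2 : ENNReal.ofReal (ε ^ 2) ≠ 0 := (ENNReal.ofReal_pos.2 (by positivity)).ne'
  have h1 := ENNReal.Tendsto.div_const hl (b := ENNReal.ofReal (ε ^ 2)) (Or.inr hε2)
  rw [ENNReal.zero_div] at h1
  refine tendsto_of_tendsto_of_tendsto_of_le_of_le tendsto_const_nhds h1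
    (fun n => zero_le) fun n => ?_
  have hm : Measurable fun v => ENNReal.ofReal (‖Φ.D n v / n - g v‖ ^ 2) :=
    ((((Φ.D_cont_v n).measurable.div_const _).sub hg).norm.pow_const 2).ennreal_ofReal
  refine le_trans (measure_mono ?_) (meas_ge_le_lintegral_div hm.aemeasurable hε2
    ENNReal.ofReal_ne_top)
  intro v hv
  have hv' : ε ≤ ‖Φ.D n v / n - g v‖ := hv
  exact ENNReal.ofReal_le_ofReal (pow_le_pow_left₀ hε.le hv' 2)

/-- the set where the upper limit is at most zero -/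
def M2_A (Φ : Flow S) (c : ℂ) (ns : ℕ → ℕ) : Set (ℂ × ℝ) :=
  {v | ∀ k : ℕ, ∃ N : ℕ, ∀ i ≥ N, (c * (Φ.D (ns i) v / (ns i : ℂ))).re ≤ ((k : ℝ) + 1)⁻¹}

theorem M2_A_meas (Φ : Flow S) (c : ℂ) (ns : ℕ → ℕ) : MeasurableSet (M2_A Φ c ns) := by
  have e : M2_A Φ c ns = ⋂ k : ℕ, ⋃ N : ℕ, ⋂ i : ℕ, ⋂ _ : i ≥ N,
      {v | (c * (Φ.D (ns i) v / (ns i : ℂ))).re ≤ ((k : ℝ) + 1)⁻¹} := by
    ext v
    simp only [M2_A, mem_iInter, mem_iUnion, mem_ofPred_eq]
  rw [e]
  refine MeasurableSet.iInter fun k => MeasurableSet.iUnion fun N => MeasurableSet.iInter fun i =>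
    MeasurableSet.iInter fun _ => measurableSet_le ?_ measurable_const
  exact (Complex.continuous_re.comp (continuous_const.mul
    ((Φ.D_cont_v _).div_const _))).measurable

theorem M2_A_inv (Φ : Flow S) (c : ℂ) (ns : ℕ → ℕ) : S.Inv (fun v => v ∈ M2_A Φ c ns) where
  inv₁ v := by simp only [M2_A, mem_ofPred_eq, (Φ.D_inv _).inv₁ v]
  inv₂ v := by simp only [M2_A, mem_ofPred_eq, (Φ.D_inv _).inv₂ v]
  inv₃ v := by simp only [M2_A, mem_ofPred_eq, (Φ.D_inv _).inv₃ v]

theorem M2_A_flow' (Φ : Flow S) (c : ℂ) {ns : ℕ → ℕ} (hns : StrictMono ns) (t : ℝ) (v : ℂ × ℝ)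
    (hv : v ∈ M2_A Φ c ns) : Φ.φ t v ∈ M2_A Φ c ns := by
  obtain ⟨C, hC0, hC⟩ := D_le Φ
  have hd : ∀ n : ℕ, ‖Φ.D n (Φ.φ t v) - Φ.D n v‖ ≤ 2 * (C * |t|) := by
    intro n
    have h1 := Φ.D_add n t v
    have h2 := Φ.D_add t n v
    have h3 : Φ.D n (Φ.φ t v) - Φ.D n v = Φ.D t (Φ.φ n v) - Φ.D t v := by
      rw [add_comm t (n : ℝ), h1] at h2
      linear_combination h2
    rw [h3]
    refine (norm_sub_le _ _).trans ?_
    linarith [hC t (Φ.φ n v), hC t v]
  intro k
  obtain ⟨N, hN⟩ := hv (2 * k + 1)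
  obtain ⟨M, hM⟩ := exists_nat_gt (‖c‖ * (2 * (C * |t|)) * (2 * ((k : ℝ) + 1)))
  refine ⟨max N (max M 1), fun i hi => ?_⟩
  have hiN : N ≤ i := (le_max_left _ _).trans hi
  have hiM : M ≤ i := ((le_max_left _ _).trans (le_max_right _ _)).trans hi
  have hi1 : 1 ≤ i := ((le_max_right _ _).trans (le_max_right _ _)).trans hi
  have hni : i ≤ ns i := hns.le_apply
  have hn0 : (0 : ℝ) < ns i := by
    have : 1 ≤ ns i := hi1.trans hni
    exact_mod_cast this
  have hnM : (M : ℝ) ≤ ns i := by exact_mod_cast hiM.trans hni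
  have h1 := hN i hiN
  have h2 : (c * (Φ.D (ns i) (Φ.φ t v) / (ns i : ℂ))).re =
      (c * (Φ.D (ns i) v / (ns i : ℂ))).re +
        (c * ((Φ.D (ns i) (Φ.φ t v) - Φ.D (ns i) v) / (ns i : ℂ))).re := by
    rw [← Complex.add_re]
    congr 1
    ring
  have h3 : (c * ((Φ.D (ns i) (Φ.φ t v) - Φ.D (ns i) v) / (ns i : ℂ))).re ≤
      ‖c‖ * (2 * (C * |t|)) / ns i := by
    refine (Complex.re_le_norm _).trans ?_
    rw [norm_mul, norm_div, Complex.norm_natCast, mul_div_assoc]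
    gcongr
    exact hd (ns i)
  have h4 : ‖c‖ * (2 * (C * |t|)) / ns i ≤ (2 * ((k : ℝ) + 1))⁻¹ := by
    rw [div_le_iff₀ hn0, ← div_eq_inv_mul, le_div_iff₀ (by positivity)]
    exact hM.le.trans hnM
  have h5 : (((2 * k + 1 : ℕ) : ℝ) + 1)⁻¹ = (2 * ((k : ℝ) + 1))⁻¹ := by
    congr 1
    push_cast
    ring
  rw [h5] at h1
  have h6 : ((k : ℝ) + 1)⁻¹ = (2 * ((k : ℝ) + 1))⁻¹ + (2 * ((k : ℝ) + 1))⁻¹ := by
    have : (0 : ℝ) < (k : ℝ) + 1 := by positivity
    field_simp
    norm_num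
  rw [h2, h6]
  linarith

theorem M2_A_flow (Φ : Flow S) (c : ℂ) {ns : ℕ → ℕ} (hns : StrictMono ns) (t : ℝ) (v : ℂ × ℝ) :
    Φ.φ t v ∈ M2_A Φ c ns ↔ v ∈ M2_A Φ c ns := by
  refine ⟨fun h => ?_, M2_A_flow' Φ c hns t v⟩
  have h1 := M2_A_flow' Φ c hns (-t) _ h
  rwa [← Φ.add, neg_add_cancel, Φ.zero] at h1

theorem M2_le (h : S.Ergodic) (Φ : Flow S) (g : ℂ × ℝ → ℂ) (hg : Measurable g) {ns : ℕ → ℕ}
    (hns : StrictMono ns)
    (hlim : ∀ᵐ v ∂(S.m.restrict S.box), Tendsto (fun i => Φ.D (ns i) v / (ns i : ℂ)) atTop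
      (𝓝 (g v))) (c : ℂ) : ∀ᵐ v ∂(S.m.restrict S.box), (c * g v).re ≤ 0 := by
  have := M2_fin S
  obtain ⟨C, hC0, hC⟩ := D_le Φ
  have hbd : ∀ (n : ℕ) v, ‖Φ.D n v / (n : ℂ)‖ ≤ C := by
    intro n v
    rw [norm_div, Complex.norm_natCast]
    rcases Nat.eq_zero_or_pos n with rfl | hn
    · simp [hC0.le]
    · have hn' : (0 : ℝ) < n := by exact_mod_cast hn
      rw [div_le_iff₀ hn']
      have := hC n v
      rwa [abs_of_pos hn'] at this
  have hm : ∀ n : ℕ, Measurable fun v => (c * (Φ.D n v / (n : ℂ))).re := fun n =>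
    (Complex.continuous_re.comp (continuous_const.mul ((Φ.D_cont_v _).div_const _))).measurable
  have hlim2 : ∀ᵐ v ∂(S.m.restrict S.box), Tendsto (fun i => (c * (Φ.D (ns i) v /
      (ns i : ℂ))).re) atTop (𝓝 (c * g v).re) := by
    filter_upwards [hlim] with v hv
    exact (Complex.continuous_re.tendsto _).comp (hv.const_mul c)
  have hbd2 : ∀ (n : ℕ) v, ‖(c * (Φ.D n v / (n : ℂ))).re‖ ≤ ‖c‖ * C := by
    intro n v
    rw [Real.norm_eq_abs]
    refine (Complex.abs_re_le_norm _).trans ?_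
    rw [norm_mul]
    exact mul_le_mul_of_nonneg_left (hbd n v) (norm_nonneg c)
  -- the integral of the limit
  have hint : ∫ v in S.box, (c * g v).re ∂S.m = 0 := by
    have h1 := tendsto_integral_of_dominated_convergence (μ := S.m.restrict S.box)
      (fun _ => ‖c‖ * C) (fun i => (hm (ns i)).aestronglyMeasurable) (integrable_const _)
      (fun i => ae_of_all _ fun v => hbd2 (ns i) v) hlim2
    have h2 : ∀ n : ℕ, ∫ v in S.box, (c * (Φ.D n v / (n : ℂ))).re ∂S.m = 0 := by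
      intro n
      have h3 : ∀ v, (c * (Φ.D n v / (n : ℂ))).re = (n : ℝ)⁻¹ * (c * Φ.D n v).re := by
        intro v
        rw [← Complex.re_ofReal_mul]
        congr 1
        push_cast
        ring
      simp_rw [h3]
      rw [integral_const_mul]
      have h4 := M2_J_nat Φ c n
      rw [M2_J] at h4
      rw [h4, mul_zero]
    simp_rw [h2] at h1
    exact tendsto_nhds_unique h1 tendsto_const_nhds
  have hgb : ∀ᵐ v ∂(S.m.restrict S.box), ‖(c * g v).re‖ ≤ ‖c‖ * C := by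
    filter_upwards [hlim2] with v hv
    exact le_of_tendsto hv.norm (Eventually.of_forall fun i => hbd2 (ns i) v)
  have hgm : Measurable fun v => (c * g v).re :=
    Complex.continuous_re.measurable.comp (hg.const_mul c)
  have hgi : Integrable (fun v => (c * g v).re) (S.m.restrict S.box) :=
    Integrable.of_bound hgm.aestronglyMeasurable _ hgb
  -- the zero-one law
  have hiff : ∀ᵐ v ∂(S.m.restrict S.box), v ∈ M2_A Φ c ns ↔ (c * g v).re ≤ 0 := by
    filter_upwards [hlim2] with v hv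
    constructor
    · intro hA
      refine le_of_forall_pos_le_add fun δ hδ => ?_
      rw [zero_add]
      obtain ⟨k, hk⟩ := exists_nat_one_div_lt hδ
      obtain ⟨N, hN⟩ := hA k
      refine (le_of_tendsto hv ?_).trans hk.le
      filter_upwards [eventually_ge_atTop N] with i hi
      rw [one_div]
      exact hN i hi
    · intro hle k
      have hk : (0 : ℝ) < ((k : ℝ) + 1)⁻¹ := by positivity
      have := hv.eventually (gt_mem_nhds (lt_of_le_of_lt hle hk))
      obtain ⟨N, hN⟩ := eventually_atTop.1 this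
      exact ⟨N, fun i hi => (hN i hi).le⟩
  rcases erg_flow h Φ _ (M2_A_meas Φ c ns) (M2_A_inv Φ c ns) (M2_A_flow Φ c hns) with h0 | h0
  · have h1 : ∀ᵐ v ∂(S.m.restrict S.box), v ∉ M2_A Φ c ns := by
      refine ae_restrict_of_ae ?_
      exact measure_eq_zero_iff_ae_notMem.1 ((m_null S _).2 h0)
    have h2 : ∀ᵐ v ∂(S.m.restrict S.box), 0 < (c * g v).re := by
      filter_upwards [h1, hiff] with v h3 h4
      by_contra h5
      exact h3 (h4.2 (not_lt.1 h5))
    have h3 := (integral_eq_zero_iff_of_nonneg_ae (h2.mono fun v hv => hv.le) hgi).1 hint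
    filter_upwards [h2, h3] with v h4 h5
    exact h5.le
  · have h1 : ∀ᵐ v ∂(S.m.restrict S.box), v ∈ M2_A Φ c ns := by
      refine ae_restrict_of_ae ?_
      exact (m_null S _).2 h0
    filter_upwards [h1, hiff] with v h3 h4
    exact h4.1 h3

theorem drift_zero (h : S.Ergodic) (Φ : Flow S) (ε : ℝ) (hε : 0 < ε) : ∃ N : ℕ, ∀ n ≥ N,
    ∫⁻ v in S.box, ENNReal.ofReal (‖Φ.D n v‖ ^ 2) ∂S.m ≤ ENNReal.ofReal (ε * n ^ 2) := by
  obtain ⟨g, hg, -, hl⟩ := mean_ergodic Φ
  obtain ⟨ns, hns, hlim⟩ := (M2_inMeasure Φ g hg hl).exists_seq_tendsto_ae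
  have hg0 : ∀ᵐ v ∂(S.m.restrict S.box), g v = 0 := by
    filter_upwards [M2_le h Φ g hg hns hlim 1, M2_le h Φ g hg hns hlim (-1),
      M2_le h Φ g hg hns hlim Complex.I, M2_le h Φ g hg hns hlim (-Complex.I)] with v h1 h2 h3 h4
    simp only [one_mul, neg_mul, Complex.neg_re, Complex.mul_re, Complex.I_re, Complex.I_im,
      zero_mul, zero_sub] at h1 h2 h3 h4
    exact Complex.ext (by simp; linarith) (by simp; linarith)
  have hl2 : Tendsto (fun n : ℕ => ∫⁻ v in S.box, ENNReal.ofReal (‖Φ.D n v / n‖ ^ 2) ∂S.m)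
      atTop (𝓝 0) := by
    refine hl.congr fun n => ?_
    refine lintegral_congr_ae ?_
    filter_upwards [hg0] with v hv
    rw [hv, sub_zero]
  have hev := hl2.eventually (gt_mem_nhds (ENNReal.ofReal_pos.2 hε))
  obtain ⟨N, hN⟩ := eventually_atTop.1 hev
  refine ⟨max N 1, fun n hn => ?_⟩
  have hn1 : 1 ≤ n := (le_max_right _ _).trans hn
  have hn0 : (0 : ℝ) < n := by exact_mod_cast hn1
  have h1 := (hN n ((le_max_left _ _).trans hn)).le
  have h2 : ∀ v, ENNReal.ofReal (‖Φ.D n v‖ ^ 2) =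
      ENNReal.ofReal (n ^ 2) * ENNReal.ofReal (‖Φ.D n v / n‖ ^ 2) := by
    intro v
    rw [← ENNReal.ofReal_mul (by positivity), norm_div, Complex.norm_natCast]
    congr 1
    field_simp
  simp_rw [h2]
  rw [lintegral_const_mul _ (((Φ.D_cont_v n).measurable.div_const _).norm.pow_const 2).ennreal_ofReal,
    mul_comm ε, ENNReal.ofReal_mul (by positivity)]
  gcongr

end

end Pool.Agent.ET
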