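import Mathlib
import Pool.Agent.Lib_helper25.ET.Base
import Pool.Agent.Lib_helper94.ET.ER
import Pool.Agent.Lib_helper42.ET.IV

/-! Project ET (MP_861054_an), block DF: the displacement is at least diffusive. -/

set_option autoImplicit false

namespace Pool.Agent.ET

open MeasureTheory Filter Topology Set
open scoped ContDiff ENNReal

noncomputable section

variable {S : Torus}

/-! ### The time spent near the starting point -/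

/-- the time spent at distance at most `2` from the starting point -/
def DF_G (Φ : Flow S) (v : ℂ × ℝ) : ℝ≥0∞ := volume {t : ℝ | 0 ≤ t ∧ ‖Φ.D t v‖ ≤ 2}

theorem DF_G_meas (Φ : Flow S) : Measurable (DF_G Φ) := by
  have h1 : MeasurableSet {p : (ℂ × ℝ) × ℝ | 0 ≤ p.2} :=
    measurableSet_le measurable_const measurable_snd
  have h2 : MeasurableSet {p : (ℂ × ℝ) × ℝ | ‖Φ.D p.2 p.1‖ ≤ 2} :=
    measurableSet_le ((Φ.D_cont.comp
      (by fun_prop : Continuous fun p : (ℂ × ℝ) × ℝ => (p.2, p.1))).norm).measurable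
      measurable_const
  have hs : MeasurableSet {p : (ℂ × ℝ) × ℝ | 0 ≤ p.2 ∧ ‖Φ.D p.2 p.1‖ ≤ 2} := h1.inter h2
  exact measurable_measure_prodMk_left hs

theorem DF_G_inv (Φ : Flow S) : S.Inv (DF_G Φ) where
  inv₁ v := by
    unfold DF_G
    simp only [(Φ.D_inv _).inv₁ v]
  inv₂ v := by
    unfold DF_G
    simp only [(Φ.D_inv _).inv₂ v]
  inv₃ v := by
    unfold DF_G
    simp only [(Φ.D_inv _).inv₃ v]

theorem DF_G_lt (Φ : Flow S) {v : ℂ × ℝ} (hv : v ∈ S.Tp) : DF_G Φ v < ⊤ := by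
  obtain ⟨T, hT⟩ := (Tp_iff Φ v).1 hv 3
  refine (measure_mono (t := Icc (-|T|) |T|) ?_).trans_lt measure_Icc_lt_top
  rintro t ⟨ht0, ht⟩
  by_contra hc
  have h1 : T ≤ |t| := by
    by_contra h2
    push Not at h2
    apply hc
    rw [mem_Icc, ← abs_le]
    exact h2.le.trans (le_abs_self T)
  have := hT t h1
  linarith

/-- a set of times at which the position is in a cell of diameter at most `2` -/
theorem DF_cell (Φ : Flow S) (K : ℝ≥0∞) (v : ℂ × ℝ) (E : Set ℝ)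
    (hE : ∀ t ∈ E, 0 ≤ t ∧ DF_G Φ (Φ.φ t v) ≤ K)
    (hd : ∀ s ∈ E, ∀ t ∈ E, ‖Φ.D t v - Φ.D s v‖ ≤ 2) : volume E ≤ K := by
  rcases E.eq_empty_or_nonempty with rfl | hne
  · simp
  have hb : BddBelow E := ⟨0, fun t ht => (hE t ht).1⟩
  obtain ⟨u, hu, hut, huE⟩ := exists_seq_tendsto_sInf hne hb
  have h1 : ∀ n, volume (E ∩ Ici (u n)) ≤ K := by
    intro n
    have h2 : E ∩ Ici (u n) ⊆ (fun t => t - u n) ⁻¹'
        {s : ℝ | 0 ≤ s ∧ ‖Φ.D s (Φ.φ (u n) v)‖ ≤ 2} := by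
      rintro t ⟨ht, htu⟩
      refine ⟨sub_nonneg.2 htu, ?_⟩
      rw [Φ.D_sub]
      exact hd _ (huE n) _ ht
    refine (measure_mono h2).trans ?_
    have h3 : volume ((fun t => t - u n) ⁻¹' {s : ℝ | 0 ≤ s ∧ ‖Φ.D s (Φ.φ (u n) v)‖ ≤ 2}) =
        volume {s : ℝ | 0 ≤ s ∧ ‖Φ.D s (Φ.φ (u n) v)‖ ≤ 2} := by
      simp only [sub_eq_add_neg]
      exact measure_preimage_add_right volume (-(u n)) _
    rw [h3]
    exact (hE _ (huE n)).2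
  have h4 : E ⊆ {sInf E} ∪ ⋃ n, E ∩ Ici (u n) := by
    intro t ht
    rcases (csInf_le hb ht).eq_or_lt with h | h
    · left
      exact h.symm
    · right
      obtain ⟨n, hn⟩ := (hut.eventually (gt_mem_nhds h)).exists
      exact mem_iUnion.2 ⟨n, ht, hn.le⟩
  have h5 : volume (⋃ n, E ∩ Ici (u n)) ≤ K := by
    have hm : Monotone fun n => E ∩ Ici (u n) := by
      intro a b hab
      exact inter_subset_inter_right _ (Ici_subset_Ici.2 (hu hab))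
    rw [hm.measure_iUnion]
    exact iSup_le h1
  calc volume E ≤ volume ({sInf E} ∪ ⋃ n, E ∩ Ici (u n)) := measure_mono h4
    _ ≤ volume {sInf E} + volume (⋃ n, E ∩ Ici (u n)) := measure_union_le _ _
    _ ≤ 0 + K := by
        gcongr
        simp
    _ = K := zero_add K

theorem DF_count (Φ : Flow S) (K : ℝ≥0∞) (v : ℂ × ℝ) (r : ℝ) :
    volume {t : ℝ | 0 ≤ t ∧ ‖Φ.D t v‖ ≤ r ∧ DF_G Φ (Φ.φ t v) ≤ K} ≤
      (2 * ⌈r⌉₊ + 1 : ℕ) ^ 2 * K := by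
  obtain ⟨n, hn⟩ : ∃ n : ℕ, n = ⌈r⌉₊ := ⟨_, rfl⟩
  rw [← hn]
  have hr : r ≤ n := by
    rw [hn]
    exact Nat.le_ceil r
  let I : Finset (ℤ × ℤ) := Finset.Icc (-(n : ℤ)) n ×ˢ Finset.Icc (-(n : ℤ)) n
  let E : ℤ × ℤ → Set ℝ := fun p => {t : ℝ | (0 ≤ t ∧ DF_G Φ (Φ.φ t v) ≤ K) ∧
    ⌊(Φ.D t v).re⌋ = p.1 ∧ ⌊(Φ.D t v).im⌋ = p.2}
  have hfl : ∀ x : ℝ, |x| ≤ r → ⌊x⌋ ∈ Finset.Icc (-(n : ℤ)) n := by
    intro x hx
    rw [abs_le] at hx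
    rw [Finset.mem_Icc]
    constructor
    · rw [Int.le_floor]
      push_cast
      linarith
    · have h1 : (⌊x⌋ : ℝ) ≤ n := (Int.floor_le x).trans (hx.2.trans hr)
      exact_mod_cast h1
  have hsub : {t : ℝ | 0 ≤ t ∧ ‖Φ.D t v‖ ≤ r ∧ DF_G Φ (Φ.φ t v) ≤ K} ⊆ ⋃ p ∈ I, E p := by
    rintro t ⟨h0, h1, h2⟩
    refine mem_biUnion (x := (⌊(Φ.D t v).re⌋, ⌊(Φ.D t v).im⌋)) ?_ ⟨⟨h0, h2⟩, rfl, rfl⟩
    exact Finset.mem_product.2 ⟨hfl _ ((Complex.abs_re_le_norm _).trans h1),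
      hfl _ ((Complex.abs_im_le_norm _).trans h1)⟩
  have hcell : ∀ p, volume (E p) ≤ K := by
    intro p
    refine DF_cell Φ K v (E p) (fun t ht => ht.1) ?_
    rintro s ⟨-, hs1, hs2⟩ t ⟨-, ht1, ht2⟩
    have e1 : |(Φ.D t v - Φ.D s v).re| < 1 := by
      rw [Complex.sub_re]
      exact Int.abs_sub_lt_one_of_floor_eq_floor (ht1.trans hs1.symm)
    have e2 : |(Φ.D t v - Φ.D s v).im| < 1 := by
      rw [Complex.sub_im]
      exact Int.abs_sub_lt_one_of_floor_eq_floor (ht2.trans hs2.symm)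
    have e3 := Complex.norm_le_abs_re_add_abs_im (Φ.D t v - Φ.D s v)
    linarith
  have hcard : I.card = (2 * n + 1) ^ 2 := by
    rw [Finset.card_product, Int.card_Icc]
    have : ((n : ℤ) + 1 - -(n : ℤ)).toNat = 2 * n + 1 := by omega
    rw [this, sq]
  calc volume {t : ℝ | 0 ≤ t ∧ ‖Φ.D t v‖ ≤ r ∧ DF_G Φ (Φ.φ t v) ≤ K}
      ≤ volume (⋃ p ∈ I, E p) := measure_mono hsub
    _ ≤ ∑ p ∈ I, volume (E p) := measure_biUnion_finset_le _ _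
    _ ≤ ∑ _p ∈ I, K := Finset.sum_le_sum fun p _ => hcell p
    _ = (2 * n + 1 : ℕ) ^ 2 * K := by
        rw [Finset.sum_const, hcard, nsmul_eq_mul]
        push_cast
        ring

theorem DF_small (Φ : Flow S) (hp : volume S.Tpᶜ = 0) (δ : ℝ≥0∞) (hδ : 0 < δ) :
    ∃ K : ℕ, S.m (S.box ∩ {v | (K : ℝ≥0∞) < DF_G Φ v}) ≤ δ := by
  have hm : ∀ K : ℕ, MeasurableSet (S.box ∩ {v | (K : ℝ≥0∞) < DF_G Φ v}) := fun K =>
    (box_meas S).inter (measurableSet_lt measurable_const (DF_G_meas Φ))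
  have ha : Antitone fun K : ℕ => S.box ∩ {v | (K : ℝ≥0∞) < DF_G Φ v} := by
    intro a b hab v hv
    have h3 : (a : ℝ≥0∞) ≤ b := by exact_mod_cast hab
    have h4 : (b : ℝ≥0∞) < DF_G Φ v := hv.2
    exact ⟨hv.1, h3.trans_lt h4⟩
  have h1 := tendsto_measure_iInter_atTop (μ := S.m) (fun K => (hm K).nullMeasurableSet) ha
    ⟨0, ((measure_mono inter_subset_left).trans_lt (box_fin S)).ne⟩
  have h2 : S.m (⋂ K : ℕ, S.box ∩ {v | (K : ℝ≥0∞) < DF_G Φ v}) = 0 := by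
    refine measure_mono_null ?_ ((m_null S _).2 hp)
    intro v hv hvp
    obtain ⟨K, hK⟩ := ENNReal.exists_nat_gt (DF_G_lt Φ hvp).ne
    exact absurd (mem_iInter.1 hv K).2 (not_lt.2 hK.le)
  rw [h2] at h1
  obtain ⟨K, hK⟩ := (h1.eventually (gt_mem_nhds hδ)).exists
  exact ⟨K, hK.le⟩

theorem DF_phi_meas (Φ : Flow S) : Measurable fun p : (ℂ × ℝ) × ℝ => Φ.φ p.2 p.1 :=
  (Φ.cont.comp (by fun_prop : Continuous fun p : (ℂ × ℝ) × ℝ => (p.2, p.1))).measurable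

/-- the mean time spent near the origin -/
theorem DF_mean (Φ : Flow S) (K : ℕ) (r T : ℝ) :
    ∫⁻ v in S.box, volume {t : ℝ | t ∈ Icc 0 T ∧ ‖Φ.D t v‖ ≤ r} ∂S.m ≤
      (2 * ⌈r⌉₊ + 1 : ℕ) ^ 2 * K * S.m S.box +
        ENNReal.ofReal T * S.m (S.box ∩ {v | (K : ℝ≥0∞) < DF_G Φ v}) := by
  have hB : MeasurableSet {v | (K : ℝ≥0∞) < DF_G Φ v} :=
    measurableSet_lt measurable_const (DF_G_meas Φ)
  have hB2 : MeasurableSet {p : (ℂ × ℝ) × ℝ | p.2 ∈ Icc 0 T ∧ (K : ℝ≥0∞) < DF_G Φ (Φ.φ p.2 p.1)} :=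
    (measurable_snd measurableSet_Icc).inter ((DF_phi_meas Φ) hB)
  have h1 : ∀ v, volume {t : ℝ | t ∈ Icc 0 T ∧ ‖Φ.D t v‖ ≤ r} ≤
      (2 * ⌈r⌉₊ + 1 : ℕ) ^ 2 * K +
        volume {t : ℝ | t ∈ Icc 0 T ∧ (K : ℝ≥0∞) < DF_G Φ (Φ.φ t v)} := by
    intro v
    refine (measure_mono (t := {t : ℝ | 0 ≤ t ∧ ‖Φ.D t v‖ ≤ r ∧ DF_G Φ (Φ.φ t v) ≤ K} ∪
      {t : ℝ | t ∈ Icc 0 T ∧ (K : ℝ≥0∞) < DF_G Φ (Φ.φ t v)}) ?_).trans
      ((measure_union_le _ _).trans (add_le_add_left (DF_count Φ K v r) _))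
    rintro t ⟨h1, h2⟩
    rcases le_or_gt (DF_G Φ (Φ.φ t v)) K with h3 | h3
    · exact Or.inl ⟨h1.1, h2, h3⟩
    · exact Or.inr ⟨h1, h3⟩
  have h2 : Measurable fun v => volume {t : ℝ | t ∈ Icc 0 T ∧ (K : ℝ≥0∞) < DF_G Φ (Φ.φ t v)} :=
    measurable_measure_prodMk_left hB2
  have h3 : ∫⁻ v in S.box, volume {t : ℝ | t ∈ Icc 0 T ∧ (K : ℝ≥0∞) < DF_G Φ (Φ.φ t v)} ∂S.m =
      ENNReal.ofReal T * S.m (S.box ∩ {v | (K : ℝ≥0∞) < DF_G Φ v}) := by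
    have e1 : ∀ v, volume {t : ℝ | t ∈ Icc 0 T ∧ (K : ℝ≥0∞) < DF_G Φ (Φ.φ t v)} =
        ∫⁻ t in Icc 0 T, {v | (K : ℝ≥0∞) < DF_G Φ v}.indicator (fun _ => (1 : ℝ≥0∞)) (Φ.φ t v) := by
      intro v
      have hBv : MeasurableSet {t : ℝ | (K : ℝ≥0∞) < DF_G Φ (Φ.φ t v)} :=
        (Φ.cont_t v).measurable hB
      have e2 : (fun t => {v | (K : ℝ≥0∞) < DF_G Φ v}.indicator (fun _ => (1 : ℝ≥0∞)) (Φ.φ t v)) =
          {t : ℝ | (K : ℝ≥0∞) < DF_G Φ (Φ.φ t v)}.indicator (fun _ => (1 : ℝ≥0∞)) := by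
        funext t
        rfl
      rw [e2, lintegral_indicator hBv, lintegral_const, one_mul, Measure.restrict_restrict hBv,
        Measure.restrict_apply MeasurableSet.univ, univ_inter]
      congr 1
      ext t
      exact and_comm
    have hf : Measurable (Function.uncurry fun (v : ℂ × ℝ) (t : ℝ) =>
        {v | (K : ℝ≥0∞) < DF_G Φ v}.indicator (fun _ => (1 : ℝ≥0∞)) (Φ.φ t v)) :=
      (measurable_const.indicator hB).comp (DF_phi_meas Φ)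
    simp_rw [e1]
    have : IsFiniteMeasure (S.m.restrict S.box) := ⟨by
      rw [Measure.restrict_apply MeasurableSet.univ, univ_inter]
      exact box_fin S⟩
    rw [lintegral_lintegral_swap hf.aemeasurable]
    have e3 : ∀ t : ℝ, ∫⁻ v in S.box, {v | (K : ℝ≥0∞) < DF_G Φ v}.indicator
        (fun _ => (1 : ℝ≥0∞)) (Φ.φ t v) ∂S.m = S.m (S.box ∩ {v | (K : ℝ≥0∞) < DF_G Φ v}) := by
      intro t
      rw [lint_inv Φ t ({v | (K : ℝ≥0∞) < DF_G Φ v}.indicator (fun _ => (1 : ℝ≥0∞)))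
        (measurable_const.indicator hB) ?_]
      · rw [lintegral_indicator hB, lintegral_const, one_mul, Measure.restrict_restrict hB,
          Measure.restrict_apply MeasurableSet.univ, univ_inter, inter_comm]
      · have h5 := (DF_G_inv Φ).comp (fun x : ℝ≥0∞ => if (K : ℝ≥0∞) < x then (1 : ℝ≥0∞) else 0)
        have e4 : {v | (K : ℝ≥0∞) < DF_G Φ v}.indicator (fun _ => (1 : ℝ≥0∞)) =
            fun v => if (K : ℝ≥0∞) < DF_G Φ v then (1 : ℝ≥0∞) else 0 := by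
          funext v
          rw [Set.indicator_apply]
          congr
        rw [e4]
        exact h5
    simp_rw [e3]
    rw [lintegral_const, Measure.restrict_apply MeasurableSet.univ, univ_inter, Real.volume_Icc,
      sub_zero, mul_comm]
  calc ∫⁻ v in S.box, volume {t : ℝ | t ∈ Icc 0 T ∧ ‖Φ.D t v‖ ≤ r} ∂S.m
      ≤ ∫⁻ v in S.box, ((2 * ⌈r⌉₊ + 1 : ℕ) ^ 2 * K +
        volume {t : ℝ | t ∈ Icc 0 T ∧ (K : ℝ≥0∞) < DF_G Φ (Φ.φ t v)}) ∂S.m := lintegral_mono h1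
    _ = (2 * ⌈r⌉₊ + 1 : ℕ) ^ 2 * K * S.m S.box +
        ENNReal.ofReal T * S.m (S.box ∩ {v | (K : ℝ≥0∞) < DF_G Φ v}) := by
        rw [lintegral_add_left measurable_const, h3, lintegral_const,
          Measure.restrict_apply MeasurableSet.univ, univ_inter]

/-- the density is bounded below on the box -/
theorem DF_dens (S : Torus) : ∃ c > (0 : ℝ), ∀ v ∈ S.box, c ≤ Real.exp (2 * S.u v.1) := by
  have hc : Continuous fun p : ℝ × ℝ => S.u (p.1 * S.w₁ + p.2 * S.w₂) :=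
    S.smooth.continuous.comp (by fun_prop)
  obtain ⟨p, -, hp⟩ := (isCompact_Icc.prod isCompact_Icc :
    IsCompact (Icc (0 : ℝ) 1 ×ˢ Icc (0 : ℝ) 1)).exists_isMinOn
    ⟨(0, 0), ⟨⟨le_rfl, zero_le_one⟩, ⟨le_rfl, zero_le_one⟩⟩⟩ hc.continuousOn
  refine ⟨Real.exp (2 * S.u (p.1 * S.w₁ + p.2 * S.w₂)), Real.exp_pos _, ?_⟩
  rintro v ⟨⟨x, hx, y, hy, hv⟩, -⟩
  have h1 := hp (show (x, y) ∈ Icc (0 : ℝ) 1 ×ˢ Icc (0 : ℝ) 1 from
    ⟨⟨hx.1, hx.2.le⟩, ⟨hy.1, hy.2.le⟩⟩)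
  rw [hv]
  refine Real.exp_le_exp.2 ?_
  have h2 : S.u (p.1 * S.w₁ + p.2 * S.w₂) ≤ S.u (x * S.w₁ + y * S.w₂) := h1
  linarith

theorem DF_vol (Φ : Flow S) (r T c : ℝ) (hc : 0 < c)
    (hcb : ∀ v ∈ S.box, c ≤ Real.exp (2 * S.u v.1)) :
    volume {q : ℝ × (ℂ × ℝ) | q.1 ∈ Icc 0 T ∧ q.2 ∈ S.box ∧ ‖Φ.D q.1 q.2‖ ≤ r} ≤
      ENNReal.ofReal c⁻¹ *
        ∫⁻ v in S.box, volume {t : ℝ | t ∈ Icc 0 T ∧ ‖Φ.D t v‖ ≤ r} ∂S.m := by
  have hs1 : MeasurableSet {q : ℝ × (ℂ × ℝ) | q.1 ∈ Icc 0 T ∧ ‖Φ.D q.1 q.2‖ ≤ r} := by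
    have h1 : MeasurableSet {q : ℝ × (ℂ × ℝ) | q.1 ∈ Icc 0 T} := measurable_fst measurableSet_Icc
    have h2 : MeasurableSet {q : ℝ × (ℂ × ℝ) | ‖Φ.D q.1 q.2‖ ≤ r} :=
      measurableSet_le Φ.D_cont.norm.measurable measurable_const
    exact h1.inter h2
  have hs : MeasurableSet {q : ℝ × (ℂ × ℝ) | q.1 ∈ Icc 0 T ∧ q.2 ∈ S.box ∧
      ‖Φ.D q.1 q.2‖ ≤ r} := by
    have h3 := hs1.inter (measurable_snd (box_meas S) : MeasurableSet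
      {q : ℝ × (ℂ × ℝ) | q.2 ∈ S.box})
    refine h3.congr ?_
    ext q
    simp only [mem_inter_iff, mem_ofPred_eq]
    tauto
  have hF : Measurable fun v => volume {t : ℝ | t ∈ Icc 0 T ∧ ‖Φ.D t v‖ ≤ r} :=
    measurable_measure_prodMk_right hs1
  have hρ : Measurable fun v : ℂ × ℝ => ENNReal.ofReal (Real.exp (2 * S.u v.1)) := by
    have : Continuous fun v : ℂ × ℝ => Real.exp (2 * S.u v.1) :=
      Real.continuous_exp.comp (continuous_const.mul (S.smooth.continuous.comp continuous_fst))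
    exact this.measurable.ennreal_ofReal
  have h1 : volume {q : ℝ × (ℂ × ℝ) | q.1 ∈ Icc 0 T ∧ q.2 ∈ S.box ∧ ‖Φ.D q.1 q.2‖ ≤ r} =
      ∫⁻ v in S.box, volume {t : ℝ | t ∈ Icc 0 T ∧ ‖Φ.D t v‖ ≤ r} := by
    rw [Measure.volume_eq_prod, Measure.prod_apply_symm hs, ← lintegral_indicator (box_meas S)]
    refine lintegral_congr fun v => ?_
    by_cases hv : v ∈ S.box
    · rw [indicator_of_mem hv]
      congr 1
      ext t
      simp only [mem_preimage, mem_ofPred_eq, hv, true_and]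
    · rw [indicator_of_notMem hv]
      have : (fun t : ℝ => (t, v)) ⁻¹' {q : ℝ × (ℂ × ℝ) | q.1 ∈ Icc 0 T ∧ q.2 ∈ S.box ∧
          ‖Φ.D q.1 q.2‖ ≤ r} = ∅ := by
        ext t
        simp only [mem_preimage, mem_ofPred_eq, hv, false_and, and_false, mem_empty_iff_false]
      rw [this, measure_empty]
  rw [h1, Torus.m, restrict_withDensity (box_meas S),
    lintegral_withDensity_eq_lintegral_mul _ hρ hF, ← lintegral_const_mul _ (hρ.mul hF)]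
  refine setLIntegral_mono' (box_meas S) fun v hv => ?_
  have h2 : 1 ≤ ENNReal.ofReal c⁻¹ * ENNReal.ofReal (Real.exp (2 * S.u v.1)) := by
    rw [← ENNReal.ofReal_mul (inv_pos.2 hc).le, ← ENNReal.ofReal_one]
    refine ENNReal.ofReal_le_ofReal ?_
    calc (1 : ℝ) = c⁻¹ * c := (inv_mul_cancel₀ hc.ne').symm
      _ ≤ c⁻¹ * Real.exp (2 * S.u v.1) := mul_le_mul_of_nonneg_left (hcb v hv) (inv_pos.2 hc).le
  calc volume {t : ℝ | t ∈ Icc 0 T ∧ ‖Φ.D t v‖ ≤ r}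
      = 1 * volume {t : ℝ | t ∈ Icc 0 T ∧ ‖Φ.D t v‖ ≤ r} := (one_mul _).symm
    _ ≤ ENNReal.ofReal c⁻¹ * ENNReal.ofReal (Real.exp (2 * S.u v.1)) *
        volume {t : ℝ | t ∈ Icc 0 T ∧ ‖Φ.D t v‖ ≤ r} := by gcongr
    _ = _ := by rw [mul_assoc]; rfl

theorem diffusive (h : S.Ergodic) (Φ : Flow S) (hp : volume S.Tpᶜ = 0) (ε : ℝ) (hε : 0 < ε) :
    ∃ c > (0 : ℝ), ∃ T₀ : ℝ, ∀ T ≥ T₀,
      volume {q : ℝ × (ℂ × ℝ) | q.1 ∈ Icc 0 T ∧ q.2 ∈ S.box ∧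
        ‖Φ.D q.1 q.2‖ ≤ c * Real.sqrt T} ≤ ENNReal.ofReal (ε * T) := by
  obtain ⟨a, ha, hab⟩ := DF_dens S
  obtain ⟨K, hK⟩ := DF_small Φ hp (ENNReal.ofReal (a * ε / 2))
    (ENNReal.ofReal_pos.2 (by positivity))
  obtain ⟨B, hB⟩ : ∃ B : ℝ, B = (S.m S.box).toReal := ⟨_, rfl⟩
  have hB0 : 0 ≤ B := by rw [hB]; exact ENNReal.toReal_nonneg
  have hmB : S.m S.box = ENNReal.ofReal B := by
    rw [hB, ENNReal.ofReal_toReal (box_fin S).ne]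
  obtain ⟨L, hL⟩ : ∃ L : ℝ, L = a⁻¹ * K * B + 1 := ⟨_, rfl⟩
  have hL0 : 0 < L := by
    rw [hL]
    have : 0 ≤ a⁻¹ * K * B := by positivity
    linarith
  refine ⟨Real.sqrt (ε / (32 * L)), by positivity, max 1 (72 * L / ε), fun T hT => ?_⟩
  have hT1 : 1 ≤ T := (le_max_left _ _).trans hT
  have hT2 : 72 * L / ε ≤ T := (le_max_right _ _).trans hT
  have hT0 : 0 ≤ T := by linarith
  obtain ⟨r, hr⟩ : ∃ r : ℝ, r = Real.sqrt (ε / (32 * L)) * Real.sqrt T := ⟨_, rfl⟩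
  rw [← hr]
  have hr0 : 0 ≤ r := by rw [hr]; positivity
  have hr2 : r ^ 2 = ε / (32 * L) * T := by
    rw [hr, mul_pow, Real.sq_sqrt (by positivity), Real.sq_sqrt hT0]
  have hn : (⌈r⌉₊ : ℝ) ≤ r + 1 := (Nat.ceil_lt_add_one hr0).le
  have hn2 : ((2 * ⌈r⌉₊ + 1 : ℕ) : ℝ) ^ 2 ≤ 8 * r ^ 2 + 18 := by
    have h1 : ((2 * ⌈r⌉₊ + 1 : ℕ) : ℝ) ≤ 2 * r + 3 := by
      push_cast
      linarith
    have h2 : (0 : ℝ) ≤ ((2 * ⌈r⌉₊ + 1 : ℕ) : ℝ) := Nat.cast_nonneg _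
    nlinarith [sq_nonneg (2 * r - 3)]
  have hfin : a⁻¹ * (((2 * ⌈r⌉₊ + 1 : ℕ) : ℝ) ^ 2 * K * B + T * (a * ε / 2)) ≤ ε * T := by
    have h1 : a⁻¹ * (((2 * ⌈r⌉₊ + 1 : ℕ) : ℝ) ^ 2 * K * B) ≤ (8 * r ^ 2 + 18) * L := by
      have h2 : a⁻¹ * (((2 * ⌈r⌉₊ + 1 : ℕ) : ℝ) ^ 2 * K * B) =
          ((2 * ⌈r⌉₊ + 1 : ℕ) : ℝ) ^ 2 * (a⁻¹ * K * B) := by ring
      rw [h2]
      refine mul_le_mul hn2 (by rw [hL]; linarith) (by positivity) (by positivity)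
    have h3 : (8 * r ^ 2 + 18) * L = ε / 4 * T + 18 * L := by
      rw [hr2]
      field_simp
      ring
    have h4 : 18 * L ≤ ε / 4 * T := by
      rw [div_le_iff₀ hε] at hT2
      linarith
    have h5 : a⁻¹ * (T * (a * ε / 2)) = ε * T / 2 := by
      field_simp
    rw [mul_add, h5]
    linarith
  calc volume {q : ℝ × (ℂ × ℝ) | q.1 ∈ Icc 0 T ∧ q.2 ∈ S.box ∧ ‖Φ.D q.1 q.2‖ ≤ r}
      ≤ ENNReal.ofReal a⁻¹ *
        ∫⁻ v in S.box, volume {t : ℝ | t ∈ Icc 0 T ∧ ‖Φ.D t v‖ ≤ r} ∂S.m := DF_vol Φ r T a ha hab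
    _ ≤ ENNReal.ofReal a⁻¹ * ((2 * ⌈r⌉₊ + 1 : ℕ) ^ 2 * K * S.m S.box +
        ENNReal.ofReal T * S.m (S.box ∩ {v | (K : ℝ≥0∞) < DF_G Φ v})) := by
        gcongr
        exact DF_mean Φ K r T
    _ ≤ ENNReal.ofReal a⁻¹ * ((2 * ⌈r⌉₊ + 1 : ℕ) ^ 2 * K * ENNReal.ofReal B +
        ENNReal.ofReal T * ENNReal.ofReal (a * ε / 2)) := by
        rw [hmB]
        gcongr
    _ = ENNReal.ofReal (a⁻¹ * (((2 * ⌈r⌉₊ + 1 : ℕ) : ℝ) ^ 2 * K * B + T * (a * ε / 2))) := by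
        rw [ENNReal.ofReal_mul (by positivity), ENNReal.ofReal_add (by positivity) (by positivity),
          ENNReal.ofReal_mul (by positivity), ENNReal.ofReal_mul (by positivity),
          ENNReal.ofReal_mul hT0, ENNReal.ofReal_pow (by positivity), ENNReal.ofReal_natCast,
          ENNReal.ofReal_natCast]
    _ ≤ ENNReal.ofReal (ε * T) := ENNReal.ofReal_le_ofReal hfin

end

end Pool.Agent.ET
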